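import Pool.Agent.R358.OSymComb

/-!
# Element orders of the symmetric group: analytic part (Rankin's trick)
-/

set_option autoImplicit false

namespace Pool.Agent.R358.OSym

open Finset

/-- The factor of `p` in Rankin's bound. -/
noncomputable def F (N : ℕ) (r : ℝ) (p : ℕ) : ℝ := 1 + ∑ a ∈ pw p N, r ^ (p ^ a)

lemma one_le_F {N : ℕ} {r : ℝ} (hr : 0 ≤ r) (p : ℕ) : 1 ≤ F N r p := by
  unfold F
  have : 0 ≤ ∑ a ∈ pw p N, r ^ (p ^ a) := sum_nonneg fun a _ => pow_nonneg hr _
  linarith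

lemma rankin (N : ℕ) (r : ℝ) (hr : 0 ≤ r) (l : List ℕ) : ∀ n ≤ N,
    (D l n : ℝ) * r ^ n ≤ (l.map (F N r)).prod ∨ 1 < r := by
  by_cases hr1 : 1 < r
  · intro n _; exact Or.inr hr1
  rw [not_lt] at hr1
  induction l with
  | nil =>
    intro n _
    left
    simp only [D, Nat.cast_one, one_mul, List.map_nil, List.prod_nil]
    exact pow_le_one₀ hr hr1
  | cons p l ih =>
    intro n hn
    left
    have ih' : ∀ n ≤ N, (D l n : ℝ) * r ^ n ≤ (l.map (F N r)).prod := by
      intro n hn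
      rcases ih n hn with h | h
      · exact h
      · exact absurd h (not_lt.2 hr1)
    have hP : 0 ≤ (l.map (F N r)).prod := by
      apply List.prod_nonneg
      intro x hx
      obtain ⟨y, -, rfl⟩ := List.mem_map.1 hx
      exact zero_le_one.trans (one_le_F hr y)
    rw [List.map_cons, List.prod_cons, D, Nat.cast_add, Nat.cast_sum, add_mul, sum_mul]
    have h1 : ∑ a ∈ pw p n, (D l (n - p ^ a) : ℝ) * r ^ n ≤
        ∑ a ∈ pw p N, (l.map (F N r)).prod * r ^ (p ^ a) := by
      refine (sum_le_sum fun a ha => ?_).trans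
        (sum_le_sum_of_subset_of_nonneg (pw_mono hn) fun a _ _ => mul_nonneg hP (pow_nonneg hr _))
      have h2 : p ^ a ≤ n := by
        unfold pw at ha
        exact (mem_filter.1 ha).2
      have h3 : r ^ n = r ^ (n - p ^ a) * r ^ (p ^ a) := by
        rw [← pow_add, Nat.sub_add_cancel h2]
      rw [h3, ← mul_assoc]
      exact mul_le_mul_of_nonneg_right (ih' _ ((Nat.sub_le _ _).trans hn)) (pow_nonneg hr _)
    have h2 := ih' n hn
    unfold F at h1 h2 ⊢
    rw [← mul_sum] at h1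
    nlinarith

/-! ### Integers coprime to 210 -/

lemma count_step (x : ℕ) : Nat.count (Nat.Coprime 210) (x + 210) =
    Nat.count (Nat.Coprime 210) x + 48 := by
  rw [Nat.count_add]
  congr 1
  have h := Nat.filter_Ico_card_eq_of_periodic x 210 (Nat.Coprime 210) (Nat.periodic_coprime 210)
  have h2 : Nat.count (fun k => Nat.Coprime 210 (x + k)) 210 =
      ((Ico x (x + 210)).filter (Nat.Coprime 210)).card := by
    rw [Nat.count_eq_card_filter_range]
    rw [← card_image_of_injective _ (add_right_injective x)]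
    congr 1
    ext y
    simp only [mem_image, mem_filter, mem_range, mem_Ico]
    constructor
    · rintro ⟨k, ⟨h1, h2⟩, rfl⟩
      exact ⟨⟨Nat.le_add_right _ _, Nat.add_lt_add_left h1 x⟩, h2⟩
    · rintro ⟨⟨h1, h2⟩, h3⟩
      exact ⟨y - x, ⟨by omega, by rwa [Nat.add_sub_cancel' h1]⟩, Nat.add_sub_cancel' h1⟩
  rw [h2, h]
  decide +kernel

lemma count_le (x : ℕ) : 35 * Nat.count (Nat.Coprime 210) (x + 1) ≤ 8 * x + 70 := by
  induction x using Nat.strong_induction_on with
  | _ x ih =>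
    rcases Nat.lt_or_ge x 210 with h | h
    · have : ∀ x < 210, 35 * Nat.count (Nat.Coprime 210) (x + 1) ≤ 8 * x + 70 := by
        decide +kernel
      exact this x h
    · have h1 := ih (x - 210) (by omega)
      have h2 := count_step (x - 210 + 1)
      rw [show x - 210 + 1 + 210 = x + 1 by omega] at h2
      omega

/-- Indicator of the integers `m ≥ 2` coprime to 210. -/
def ind (m : ℕ) : ℕ := if 2 ≤ m ∧ Nat.Coprime 210 m then 1 else 0

lemma sum_ind (N : ℕ) : 35 * ∑ m ∈ Icc 1 N, ind m ≤ 8 * N + 35 := by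
  rcases Nat.eq_zero_or_pos N with rfl | hN
  · simp
  have h1 := count_le N
  have h2 : Nat.count (Nat.Coprime 210) (N + 1) = ∑ m ∈ Icc 1 N, ind m + 1 := by
    rw [Nat.count_eq_card_filter_range, card_filter]
    rw [← Nat.Ico_zero_eq_range]
    rw [Finset.sum_eq_sum_Ico_succ_bot (by omega), Finset.sum_eq_sum_Ico_succ_bot (by omega)]
    have h3 : Icc 1 N = Ico 1 (N + 1) := by ext; simp
    rw [h3, Finset.sum_eq_sum_Ico_succ_bot (a := 1) (by omega) ind]
    have h4 : ∑ k ∈ Ico (0 + 1 + 1) (N + 1), (if Nat.Coprime 210 k then 1 else 0) =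
        ∑ k ∈ Ico (1 + 1) (N + 1), ind k := by
      apply sum_congr rfl
      intro k hk
      rw [mem_Ico] at hk
      unfold ind
      by_cases h : Nat.Coprime 210 k
      · rw [if_pos h, if_pos ⟨by omega, h⟩]
      · rw [if_neg h, if_neg (fun h' => h h'.2)]
    rw [h4]
    have h5 : ind 1 = 0 := by simp [ind]
    rw [h5]
    simp
    ring
  omega

lemma abel (g : ℕ → ℝ) (hg : ∀ m, 1 ≤ m → g (m + 1) ≤ g m) (hg0 : ∀ m, 0 ≤ g m) (N : ℕ)
    (hN : 1 ≤ N) :
    ∑ m ∈ Icc 1 N, (ind m : ℝ) * g m ≤ 8 / 35 * ∑ m ∈ Icc 1 N, g m + g 1 := by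
  have key : ∀ N, 1 ≤ N → ∑ m ∈ Icc 1 N, ((ind m : ℝ) - 8 / 35) * g m ≤
      g 1 - (1 - ∑ m ∈ Icc 1 N, ((ind m : ℝ) - 8 / 35)) * g N := by
    intro N hN
    induction N, hN using Nat.le_induction with
    | base =>
      simp only [Icc_self, sum_singleton]
      linarith
    | succ n hn ih =>
      rw [Finset.sum_Icc_succ_top (by omega), Finset.sum_Icc_succ_top (by omega)]
      have h1 : 0 ≤ 1 - ∑ m ∈ Icc 1 n, ((ind m : ℝ) - 8 / 35) := by
        rw [sum_sub_distrib, sum_const, Nat.card_Icc]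
        have h2 := sum_ind n
        have h3 : (35 : ℝ) * ∑ m ∈ Icc 1 n, (ind m : ℝ) ≤ 8 * n + 35 := by exact_mod_cast h2
        simp only [Nat.add_sub_cancel, nsmul_eq_mul]
        linarith
      have h2 := hg n hn
      nlinarith
  have h1 := key N hN
  have h2 : 0 ≤ 1 - ∑ m ∈ Icc 1 N, ((ind m : ℝ) - 8 / 35) := by
    rw [sum_sub_distrib, sum_const, Nat.card_Icc]
    have h2 := sum_ind N
    have h3 : (35 : ℝ) * ∑ m ∈ Icc 1 N, (ind m : ℝ) ≤ 8 * N + 35 := by exact_mod_cast h2
    simp only [Nat.add_sub_cancel, nsmul_eq_mul]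
    linarith
  have h3 := mul_nonneg h2 (hg0 N)
  have h4 : ∑ m ∈ Icc 1 N, ((ind m : ℝ) - 8 / 35) * g m =
      ∑ m ∈ Icc 1 N, (ind m : ℝ) * g m - 8 / 35 * ∑ m ∈ Icc 1 N, g m := by
    rw [mul_sum, ← sum_sub_distrib]
    apply sum_congr rfl
    intro m _
    ring
  linarith

/-! ### The sum of `log (1 + r ^ m)` -/

lemma log_one_add_le {x : ℝ} (hx : 0 ≤ x) : Real.log (1 + x) ≤ x - x ^ 2 / 2 + x ^ 3 / 3 := by
  have hmono : MonotoneOn (fun x : ℝ => x - x ^ 2 / 2 + x ^ 3 / 3 - Real.log (1 + x))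
      (Set.Ici 0) := by
    apply monotoneOn_of_deriv_nonneg (convex_Ici 0)
    · apply ContinuousOn.sub
      · fun_prop
      · apply ContinuousOn.log (by fun_prop)
        intro x hx
        have : (0 : ℝ) ≤ x := hx
        linarith
    · intro x hx
      rw [interior_Ici] at hx
      have hx' : (0 : ℝ) < x := hx
      apply DifferentiableAt.differentiableWithinAt
      apply DifferentiableAt.sub (by fun_prop)
      apply DifferentiableAt.log (by fun_prop)
      linarith
    · intro x hx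
      rw [interior_Ici] at hx
      have hx' : (0 : ℝ) < x := hx
      have h1 : HasDerivAt (fun x : ℝ => x - x ^ 2 / 2 + x ^ 3 / 3 - Real.log (1 + x))
          (1 - (2 * x) / 2 + (3 * x ^ 2) / 3 - 1 / (1 + x)) x := by
        have e1 : HasDerivAt (fun x : ℝ => x) 1 x := hasDerivAt_id x
        have e2 : HasDerivAt (fun x : ℝ => x ^ 2 / 2) ((2 * x) / 2) x := by
          simpa using (hasDerivAt_pow 2 x).div_const 2
        have e3 : HasDerivAt (fun x : ℝ => x ^ 3 / 3) ((3 * x ^ 2) / 3) x := by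
          simpa using (hasDerivAt_pow 3 x).div_const 3
        have e4 : HasDerivAt (fun x : ℝ => Real.log (1 + x)) (1 / (1 + x)) x := by
          have := (e1.const_add 1).log (by linarith)
          simpa using this
        exact ((e1.sub e2).add e3).sub e4
      rw [h1.deriv]
      have h2 : 1 - (2 * x) / 2 + (3 * x ^ 2) / 3 - 1 / (1 + x) = x ^ 3 / (1 + x) := by
        field_simp
        ring
      rw [h2]
      positivity
  have := hmono (Set.mem_Ici.2 le_rfl) (Set.mem_Ici.2 hx) hx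
  simp only at this
  norm_num at this
  linarith

lemma inv_exp_bounds {y : ℝ} (hy : 0 < y) :
    1 / (Real.exp y - 1) ≤ 1 / y ∧ 1 / y - 1 / 2 ≤ 1 / (Real.exp y - 1) := by
  have h1 := Real.add_one_le_exp y
  have h0 : 0 < Real.exp y - 1 := by linarith
  refine ⟨one_div_le_one_div_of_le hy (by linarith), ?_⟩
  have h2 := Real.le_log_one_add_of_nonneg h0.le
  rw [show 1 + (Real.exp y - 1) = Real.exp y by ring, Real.log_exp] at h2
  rw [div_le_iff₀ (by linarith)] at h2
  rw [sub_le_iff_le_add, div_add_div _ _ h0.ne' (by norm_num), div_le_div_iff₀ hy (by linarith)]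
  nlinarith

lemma sum_log_le {X : ℝ} (hX : 0 < X) (N : ℕ) :
    ∑ m ∈ Icc 1 N, Real.log (1 + Real.exp (-1 / X) ^ m) ≤ 31 / 36 * X + 1 / 4 := by
  set r := Real.exp (-1 / X) with hr
  have hr0 : 0 < r := Real.exp_pos _
  have hr1 : r < 1 := by
    rw [hr, Real.exp_lt_one_iff]
    rw [neg_div]
    have : 0 < 1 / X := by positivity
    linarith
  have hgeo : ∀ k : ℕ, 1 ≤ k → HasSum (fun m : ℕ => (r ^ (m + 1)) ^ k)
      (1 / (Real.exp (k / X) - 1)) := by
    intro k hk
    have h1 : r ^ k = Real.exp (-(k / X)) := by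
      rw [hr, ← Real.exp_nat_mul]; congr 1; ring
    have hrk0 : 0 < r ^ k := pow_pos hr0 k
    have hrk : r ^ k < 1 := pow_lt_one₀ hr0.le hr1 (by omega)
    have h2 := (hasSum_geometric_of_lt_one hrk0.le hrk).mul_left (r ^ k)
    have h3 : r ^ k * (1 - r ^ k)⁻¹ = 1 / (Real.exp (k / X) - 1) := by
      rw [h1, Real.exp_neg]
      have h4 : 0 < Real.exp (k / X) := Real.exp_pos _
      have h5 : 1 < Real.exp (k / X) := by
        rw [Real.one_lt_exp_iff]; positivity
      have h6 : Real.exp (k / X) - 1 ≠ 0 := by linarith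
      have h7 : 1 - (Real.exp (k / X))⁻¹ ≠ 0 := by
        have : (Real.exp (k / X))⁻¹ < 1 := inv_lt_one_of_one_lt₀ h5
        linarith
      field_simp
    rw [h3] at h2
    refine h2.congr_fun ?_ |> id
    intro m
    rw [← pow_mul, ← pow_mul, ← pow_add]
    congr 1
    ring
  have hS := ((hgeo 1 le_rfl).sub ((hgeo 2 (by norm_num)).div_const 2)).add
    ((hgeo 3 (by norm_num)).div_const 3)
  have hnn : ∀ m : ℕ, 0 ≤ (r ^ (m + 1)) ^ 1 - (r ^ (m + 1)) ^ 2 / 2 + (r ^ (m + 1)) ^ 3 / 3 := by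
    intro m
    have h1 : 0 ≤ r ^ (m + 1) := (pow_pos hr0 _).le
    have h2 := log_one_add_le h1
    have h3 : 0 ≤ Real.log (1 + r ^ (m + 1)) := Real.log_nonneg (by linarith)
    rw [pow_one]
    linarith
  have h1 : ∑ m ∈ Icc 1 N, Real.log (1 + r ^ m) ≤
      ∑ m ∈ range N, ((r ^ (m + 1)) ^ 1 - (r ^ (m + 1)) ^ 2 / 2 + (r ^ (m + 1)) ^ 3 / 3) := by
    rw [show Icc 1 N = Ico 1 (N + 1) by ext; simp, Finset.sum_Ico_eq_sum_range]
    rw [Nat.add_sub_cancel]
    apply sum_le_sum
    intro m _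
    have h2 := log_one_add_le (pow_pos hr0 (m + 1)).le
    rw [add_comm 1 m, pow_one]
    exact h2
  refine h1.trans ((sum_le_hasSum _ (fun m _ => hnn m) hS).trans ?_)
  have e1 := (inv_exp_bounds (y := 1 / X) (by positivity)).1
  have e2 := (inv_exp_bounds (y := 2 / X) (by positivity)).2
  have e3 := (inv_exp_bounds (y := 3 / X) (by positivity)).1
  rw [one_div_div] at e1 e3
  rw [one_div_div] at e2
  push_cast
  rw [div_one] at e1
  linarith

end Pool.Agent.R358.OSym
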