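import Pool.Agent.R358.OSymAn

/-!
# Element orders of the symmetric group: the bound for the Euler product
-/

set_option autoImplicit false

namespace Pool.Agent.R358.OSym

open Finset

/-- The small primes. -/
def sm : Finset ℕ := {2, 3, 5, 7}

lemma h_bound {X : ℝ} (hX : 1 ≤ X) {p N : ℕ} (hp : 2 ≤ p) :
    F N (Real.exp (-1 / X)) p ≤ 3 + Real.logb 2 X := by
  have hX0 : 0 < X := by linarith
  have hlog : 0 ≤ Real.logb 2 X := Real.logb_nonneg (by norm_num) hX
  unfold F
  set A := ⌊Real.logb 2 X⌋₊ with hA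
  have hA1 : (A : ℝ) ≤ Real.logb 2 X := Nat.floor_le hlog
  have hA2 : X < 2 ^ (A + 1) := by
    have := Nat.lt_floor_add_one (Real.logb 2 X)
    rw [Real.logb_lt_iff_lt_rpow (by norm_num) hX0] at this
    calc X < (2 : ℝ) ^ (((⌊Real.logb 2 X⌋₊ : ℕ) : ℝ) + 1) := this
      _ = 2 ^ (A + 1) := by
        rw [hA, ← Nat.cast_succ, Real.rpow_natCast]
  -- termwise bound
  have hterm : ∀ a : ℕ, Real.exp (-1 / X) ^ (p ^ a) ≤ Real.exp (-(2 ^ a / X)) := by
    intro a
    rw [← Real.exp_nat_mul]
    apply Real.exp_le_exp.2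
    have : (2 : ℝ) ^ a ≤ ((p ^ a : ℕ) : ℝ) := by
      push_cast
      exact pow_le_pow_left₀ (by norm_num) (by exact_mod_cast hp) a
    have h2 : (2 : ℝ) ^ a / X ≤ ((p ^ a : ℕ) : ℝ) / X := div_le_div_of_nonneg_right this hX0.le
    have h3 : ((p ^ a : ℕ) : ℝ) * (-1 / X) = -(((p ^ a : ℕ) : ℝ) / X) := by ring
    rw [h3]
    linarith
  have h1 : ∑ a ∈ pw p N, Real.exp (-1 / X) ^ (p ^ a) ≤
      ∑ a ∈ Icc 1 N, (if a ≤ A then 1 else (1 / 2 : ℝ) ^ (a - (A + 1))) := by
    refine (sum_le_sum_of_subset_of_nonneg (filter_subset _ _)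
      (fun a _ _ => pow_nonneg (Real.exp_pos _).le _)).trans ?_
    apply sum_le_sum
    intro a _
    refine (hterm a).trans ?_
    split_ifs with h
    · rw [Real.exp_le_one_iff]
      have : (0 : ℝ) ≤ 2 ^ a / X := by positivity
      linarith
    · rw [not_le] at h
      have hy : 0 < (2 : ℝ) ^ a / X := by positivity
      have h2 : Real.exp (-(2 ^ a / X)) ≤ 1 / (2 ^ a / X) := by
        rw [Real.exp_neg, ← one_div]
        apply one_div_le_one_div_of_le hy
        have := Real.add_one_le_exp ((2 : ℝ) ^ a / X)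
        linarith
      refine h2.trans ?_
      rw [one_div_div, div_le_iff₀ (by positivity)]
      have h3 : (2 : ℝ) ^ a = 2 ^ (A + 1) * 2 ^ (a - (A + 1)) := by
        rw [← pow_add]; congr 1; omega
      rw [h3, ← mul_assoc, mul_comm ((1 / 2 : ℝ) ^ (a - (A + 1))), mul_assoc, ← mul_pow]
      norm_num
      exact hA2.le
  have h2 : ∑ a ∈ Icc 1 N, (if a ≤ A then 1 else (1 / 2 : ℝ) ^ (a - (A + 1))) ≤ A + 2 := by
    rw [← sum_filter_add_sum_filter_not (Icc 1 N) (fun a => a ≤ A)]
    apply add_le_add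
    · rw [sum_congr rfl (g := fun _ => (1 : ℝ))
        (fun a ha => if_pos (mem_filter.1 ha).2)]
      rw [sum_const, nsmul_eq_mul, mul_one]
      have : ((Icc 1 N).filter (fun a => a ≤ A)).card ≤ (Icc 1 A).card := by
        apply card_le_card
        intro a ha
        rw [mem_filter, mem_Icc] at ha
        rw [mem_Icc]
        exact ⟨ha.1.1, ha.2⟩
      rw [Nat.card_Icc, Nat.add_sub_cancel] at this
      exact_mod_cast this
    · rw [sum_congr rfl (g := fun a => (1 / 2 : ℝ) ^ (a - (A + 1)))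
        (fun a ha => if_neg (mem_filter.1 ha).2)]
      have h3 : ∑ a ∈ (Icc 1 N).filter (fun a => ¬ a ≤ A), (1 / 2 : ℝ) ^ (a - (A + 1)) =
          ∑ b ∈ ((Icc 1 N).filter (fun a => ¬ a ≤ A)).image (fun a => a - (A + 1)),
            (1 / 2 : ℝ) ^ b := by
        rw [sum_image]
        intro a ha b hb hab
        have ha' := (mem_filter.1 (mem_coe.1 ha)).2
        have hb' := (mem_filter.1 (mem_coe.1 hb)).2
        simp only at hab
        omega
      rw [h3]
      have h4 := hasSum_geometric_of_lt_one (r := (1 / 2 : ℝ)) (by norm_num) (by norm_num)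
      refine (sum_le_hasSum _ (fun b _ => by positivity) h4).trans ?_
      norm_num
  linarith

lemma one_add_sum_le {ι : Type*} (s : Finset ι) (g : ι → ℝ) (hg : ∀ i ∈ s, 0 ≤ g i) :
    1 + ∑ i ∈ s, g i ≤ ∏ i ∈ s, (1 + g i) := by
  classical
  induction s using Finset.induction_on with
  | empty => simp
  | insert a s ha ih =>
    rw [sum_insert ha, prod_insert ha]
    have h1 := ih fun i hi => hg i (mem_insert_of_mem hi)
    have h2 := hg a (mem_insert_self a s)
    have h3 : 0 ≤ ∑ i ∈ s, g i := sum_nonneg fun i hi => hg i (mem_insert_of_mem hi)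
    nlinarith [mul_le_mul_of_nonneg_left h1 h2]

lemma prod_le_of_subset {s t : Finset ℕ} (h : s ⊆ t) (g : ℕ → ℝ) (hg : ∀ i ∈ t, 1 ≤ g i) :
    ∏ i ∈ s, g i ≤ ∏ i ∈ t, g i := by
  rw [← prod_sdiff h]
  have h1 : 1 ≤ ∏ i ∈ t \ s, g i := by
    have : ∀ u : Finset ℕ, u ⊆ t → 1 ≤ ∏ i ∈ u, g i := by
      intro u
      induction u using Finset.induction_on with
      | empty => intro _; simp
      | insert a u ha ih =>
        intro hu
        rw [prod_insert ha]
        have h1 := ih fun i hi => hu (mem_insert_of_mem hi)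
        have h2 := hg a (hu (mem_insert_self a u))
        nlinarith
    exact this _ sdiff_subset
  have h2 : 0 ≤ ∏ i ∈ s, g i := prod_nonneg fun i hi => zero_le_one.trans (hg i (h hi))
  nlinarith

lemma prod_large {r : ℝ} (hr : 0 ≤ r) {P : Finset ℕ} (hP : ∀ p ∈ P, p.Prime ∧ p ∉ sm) (N : ℕ) :
    ∏ p ∈ P, F N r p ≤ ∏ m ∈ (Icc 1 N).filter (fun m => 2 ≤ m ∧ Nat.Coprime 210 m),
      (1 + r ^ m) := by
  have h1 : ∏ p ∈ P, F N r p ≤ ∏ p ∈ P, ∏ a ∈ pw p N, (1 + r ^ (p ^ a)) := by
    apply prod_le_prod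
    · intro p _
      exact zero_le_one.trans (one_le_F hr p)
    · intro p _
      unfold F
      exact one_add_sum_le _ _ (fun a _ => pow_nonneg hr _)
  refine h1.trans ?_
  rw [prod_sigma' P (fun p => pw p N) (fun p a => 1 + r ^ (p ^ a))]
  have h2 : ∏ x ∈ P.sigma (fun p => pw p N), (1 + r ^ (x.1 ^ x.2)) =
      ∏ m ∈ (P.sigma (fun p => pw p N)).image (fun x => x.1 ^ x.2), (1 + r ^ m) := by
    rw [prod_image]
    rintro ⟨p, a⟩ hpa ⟨q, b⟩ hqb h
    rw [mem_coe, mem_sigma] at hpa hqb
    simp only at h hpa hqb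
    have hp := (hP p hpa.1).1
    have hq := (hP q hqb.1).1
    have ha : a ≠ 0 := by
      have := hpa.2
      unfold pw at this
      rw [mem_filter, mem_Icc] at this
      omega
    have hb : b ≠ 0 := by
      have := hqb.2
      unfold pw at this
      rw [mem_filter, mem_Icc] at this
      omega
    have hpq : p = q := by
      have h3 : p ∣ q ^ b := by rw [← h]; exact dvd_pow_self p ha
      exact (Nat.prime_dvd_prime_iff_eq hp hq).1 (hp.dvd_of_dvd_pow h3)
    subst hpq
    have : a = b := Nat.pow_right_injective hp.two_le h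
    subst this
    rfl
  rw [h2]
  refine prod_le_of_subset ?_ _ (fun m _ => by
    have := pow_nonneg hr m
    linarith)
  · intro m hm
    rw [mem_image] at hm
    obtain ⟨⟨p, a⟩, hpa, rfl⟩ := hm
    rw [mem_sigma] at hpa
    simp only at hpa ⊢
    obtain ⟨hp, hps⟩ := hP p hpa.1
    have ha := hpa.2
    unfold pw at ha
    rw [mem_filter, mem_Icc] at ha
    have ha0 : a ≠ 0 := by omega
    rw [mem_filter, mem_Icc]
    have h3 : p ≤ p ^ a := Nat.le_self_pow ha0 p
    have h4 := hp.two_le
    refine ⟨⟨by omega, ha.2⟩, by omega, ?_⟩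
    apply Nat.Coprime.pow_right
    rw [Nat.coprime_comm, hp.coprime_iff_not_dvd]
    intro hd
    have h5 : p ∣ 2 * (3 * (5 * 7)) := hd
    apply hps
    unfold sm
    rw [hp.dvd_mul, hp.dvd_mul, hp.dvd_mul, Nat.prime_dvd_prime_iff_eq hp (by norm_num),
      Nat.prime_dvd_prime_iff_eq hp (by norm_num), Nat.prime_dvd_prime_iff_eq hp (by norm_num),
      Nat.prime_dvd_prime_iff_eq hp (by norm_num)] at h5
    simp only [mem_insert, mem_singleton]
    tauto

/-- The bound for the Euler product. -/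
lemma prod_le {X : ℝ} (hX : 200 ≤ X) {P : Finset ℕ} (hP : ∀ p ∈ P, p.Prime) (N : ℕ)
    (hN : 1 ≤ N) :
    ∏ p ∈ P, F N (Real.exp (-1 / X)) p ≤ Real.exp (X / 4) := by
  have hX0 : 0 < X := by linarith
  set r := Real.exp (-1 / X) with hr
  have hr0 : 0 < r := Real.exp_pos _
  have hr1 : r < 1 := by
    rw [hr, Real.exp_lt_one_iff, neg_div]
    have : 0 < 1 / X := by positivity
    linarith
  -- split
  rw [← prod_filter_mul_prod_filter_not P (fun p => p ∈ sm)]
  have h1 : ∏ p ∈ P.filter (fun p => p ∈ sm), F N r p ≤ (3 + Real.logb 2 X) ^ 4 := by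
    have h2 : ∏ p ∈ P.filter (fun p => p ∈ sm), F N r p ≤ ∏ p ∈ sm, F N r p := by
      apply prod_le_of_subset
      · intro p hp
        exact (mem_filter.1 hp).2
      · intro p _
        exact one_le_F hr0.le p
    refine h2.trans ?_
    have h3 : ∏ p ∈ sm, F N r p ≤ ∏ p ∈ sm, (3 + Real.logb 2 X) := by
      apply prod_le_prod
      · intro p _
        exact zero_le_one.trans (one_le_F hr0.le p)
      · intro p hp
        apply h_bound (by linarith)
        unfold sm at hp
        simp only [mem_insert, mem_singleton] at hp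
        omega
    refine h3.trans ?_
    rw [prod_const]
    simp [sm]
  have h2 : ∏ p ∈ P.filter (fun p => ¬ p ∈ sm), F N r p ≤
      ∏ m ∈ (Icc 1 N).filter (fun m => 2 ≤ m ∧ Nat.Coprime 210 m), (1 + r ^ m) := by
    apply prod_large hr0.le
    intro p hp
    rw [mem_filter] at hp
    exact ⟨hP p hp.1, hp.2⟩
  have h3 : ∏ m ∈ (Icc 1 N).filter (fun m => 2 ≤ m ∧ Nat.Coprime 210 m), (1 + r ^ m) ≤
      Real.exp (8 / 35 * (31 / 36 * X + 1 / 4) + Real.log 2) := by
    rw [← Real.log_le_iff_le_exp (prod_pos fun m _ => by positivity)]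
    rw [Real.log_prod (fun m _ => by positivity), sum_filter]
    have e1 : ∑ m ∈ Icc 1 N, (if 2 ≤ m ∧ Nat.Coprime 210 m then Real.log (1 + r ^ m) else 0) =
        ∑ m ∈ Icc 1 N, (ind m : ℝ) * Real.log (1 + r ^ m) := by
      apply sum_congr rfl
      intro m _
      unfold ind
      split_ifs <;> simp
    rw [e1]
    have e2 := abel (fun m => Real.log (1 + r ^ m)) (fun m _ => by
      apply Real.log_le_log (by positivity)
      have : r ^ (m + 1) ≤ r ^ m := pow_le_pow_of_le_one hr0.le hr1.le (Nat.le_succ m)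
      linarith) (fun m => Real.log_nonneg (by
        have := pow_nonneg hr0.le m
        linarith)) N hN
    have e3 := sum_log_le hX0 N
    rw [← hr] at e3
    have e4 : Real.log (1 + r ^ 1) ≤ Real.log 2 := by
      apply Real.log_le_log (by positivity)
      rw [pow_one]; linarith
    linarith
  have hlogb : 0 ≤ Real.logb 2 X := Real.logb_nonneg (by norm_num) (by linarith)
  have hF0 : 0 ≤ ∏ p ∈ P.filter (fun p => ¬ p ∈ sm), F N r p :=
    prod_nonneg fun p _ => zero_le_one.trans (one_le_F hr0.le p)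
  have h4 := mul_le_mul h1 (h2.trans h3) hF0 (by positivity)
  refine h4.trans ?_
  -- numeric part
  have hl2 := Real.log_two_gt_d9
  have hl2' := Real.log_two_lt_d9
  have hlX : Real.logb 2 X ≤ 344 / 45 + (X / 200 - 1) * (3 / 2) := by
    unfold Real.logb
    rw [div_le_iff₀ (by linarith)]
    have a1 : Real.log X = Real.log 200 + Real.log (X / 200) := by
      rw [← Real.log_mul (by norm_num) (by positivity)]
      congr 1; ring
    have a2 : Real.log (X / 200) ≤ X / 200 - 1 := Real.log_le_sub_one_of_pos (by positivity)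
    have a3 : 45 * Real.log 200 ≤ 344 * Real.log 2 := by
      have h5 : Real.log ((5 : ℝ) ^ 90) ≤ Real.log ((2 : ℝ) ^ 209) := by
        apply Real.log_le_log (by positivity)
        norm_num
      rw [Real.log_pow, Real.log_pow] at h5
      have h200 : Real.log 200 = 3 * Real.log 2 + 2 * Real.log 5 := by
        rw [show (200 : ℝ) = 2 ^ 3 * 5 ^ 2 by norm_num, Real.log_mul (by norm_num) (by norm_num),
          Real.log_pow, Real.log_pow]
        norm_num
      push_cast at h5
      linarith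
    have a4 : 1 ≤ X / 200 := by linarith
    nlinarith
  have hy : Real.log (3 + Real.logb 2 X) ≤ 41 / 12 * Real.log 2 + (X / 200 - 1) * (1 / 5) := by
    have b0 : 0 < 3 + Real.logb 2 X := by linarith
    have b1 : Real.log (3 + Real.logb 2 X) = Real.log 10.65 +
        Real.log ((3 + Real.logb 2 X) / 10.65) := by
      rw [← Real.log_mul (by norm_num) (by positivity)]
      congr 1; ring
    have b2 := Real.log_le_sub_one_of_pos (x := (3 + Real.logb 2 X) / 10.65) (by positivity)
    have b3 : 12 * Real.log 10.65 ≤ 41 * Real.log 2 := by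
      have : Real.log ((10.65 : ℝ) ^ 12) ≤ Real.log ((2 : ℝ) ^ 41) := by
        apply Real.log_le_log (by positivity)
        norm_num
      rwa [Real.log_pow, Real.log_pow] at this
    have b4 : 1 ≤ X / 200 := by linarith
    rw [b1]
    have b5 : (3 + Real.logb 2 X) / 10.65 - 1 ≤ (X / 200 - 1) * (1 / 5) := by
      rw [sub_le_iff_le_add, div_le_iff₀ (by norm_num)]
      nlinarith
    linarith
  have h5 : (3 + Real.logb 2 X) ^ 4 = Real.exp (4 * Real.log (3 + Real.logb 2 X)) := by
    rw [show (4 : ℝ) * Real.log (3 + Real.logb 2 X) =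
      ((4 : ℕ) : ℝ) * Real.log (3 + Real.logb 2 X) by norm_num, Real.exp_nat_mul,
      Real.exp_log (by linarith)]
  rw [h5, ← Real.exp_add]
  apply Real.exp_le_exp.2
  have h6 : 1 ≤ X / 200 := by linarith
  linarith

/-- Rankin's bound for the recursive count. -/
theorem D_le_exp {X : ℝ} (hX : 200 ≤ X) {l : List ℕ} (hl : l.Nodup) (hp : ∀ p ∈ l, p.Prime)
    (n : ℕ) : (D l n : ℝ) ≤ Real.exp (n / X + X / 4) := by
  have hX0 : 0 < X := by linarith
  have hr0 : 0 < Real.exp (-1 / X) := Real.exp_pos _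
  have hr1 : Real.exp (-1 / X) < 1 := by
    rw [Real.exp_lt_one_iff, neg_div]
    have : 0 < 1 / X := by positivity
    linarith
  have h1 := rankin (n + 1) (Real.exp (-1 / X)) hr0.le l n (Nat.le_succ n)
  rcases h1 with h1 | h1
  · have h2 : (l.map (F (n + 1) (Real.exp (-1 / X)))).prod =
        ∏ p ∈ l.toFinset, F (n + 1) (Real.exp (-1 / X)) p := by
      rw [List.prod_toFinset _ hl]
    rw [h2] at h1
    have h3 := prod_le hX (P := l.toFinset) (fun p hp' => hp p (List.mem_toFinset.1 hp')) (n + 1)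
      (by omega)
    have h4 := h1.trans h3
    rw [← Real.exp_nat_mul] at h4
    have h5 : Real.exp ((n : ℝ) * (-1 / X)) = (Real.exp (n / X))⁻¹ := by
      rw [← Real.exp_neg]; congr 1; ring
    rw [h5, ← div_eq_mul_inv, div_le_iff₀ (Real.exp_pos _), ← Real.exp_add] at h4
    rw [add_comm]
    exact h4
  · exact absurd h1 (not_lt.2 hr1.le)

/-- The analytic case. -/
theorem D_le_large {l : List ℕ} (hl : l.Nodup) (hp : ∀ p ∈ l, p.Prime)
    (n : ℕ) (hn : 10000 ≤ n) : (D l n : ℝ) ≤ Real.exp (Real.sqrt n) := by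
  have h0 : (10000 : ℝ) ≤ n := by exact_mod_cast hn
  have h1 : (100 : ℝ) ≤ Real.sqrt n := by
    rw [show (100 : ℝ) = Real.sqrt 10000 by
      rw [show (10000 : ℝ) = 100 ^ 2 by norm_num, Real.sqrt_sq (by norm_num)]]
    exact Real.sqrt_le_sqrt h0
  have h2 := D_le_exp (X := 2 * Real.sqrt n) (by linarith) hl hp n
  refine h2.trans (Real.exp_le_exp.2 ?_)
  have h3 : Real.sqrt n * Real.sqrt n = n := Real.mul_self_sqrt (by linarith)
  have h4 : (n : ℝ) / (2 * Real.sqrt n) = Real.sqrt n / 2 := by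
    rw [div_eq_div_iff (by positivity) (by norm_num)]
    linarith
  rw [h4]
  linarith

end Pool.Agent.R358.OSym
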