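import Mathlib

/-!
# Element orders of the symmetric group: combinatorial part

`f m` is the sum of the prime powers exactly dividing `m`.  The order `m` of a permutation of `n`
letters has `f m ≤ n`, and the number of such `m` is at most `D l n`, defined recursively over a list
`l` containing all primes up to `n`.
-/

set_option autoImplicit false

namespace Pool.Agent.R358.OSym

open Finset

/-- The sum of the prime powers exactly dividing `m`. -/
def f (m : ℕ) : ℕ := ∑ p ∈ m.primeFactors, p ^ m.factorization p

/-- The exponents `a ≥ 1` with `p ^ a ≤ n` (for `p ≥ 2`). -/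
def pw (p n : ℕ) : Finset ℕ := (Icc 1 n).filter (fun a => p ^ a ≤ n)

/-- The recursive count. -/
def D : List ℕ → ℕ → ℕ
  | [], _ => 1
  | p :: l, n => D l n + ∑ a ∈ pw p n, D l (n - p ^ a)

/-- The recursive set. -/
def T : List ℕ → ℕ → Finset ℕ
  | [], _ => {1}
  | p :: l, n => T l n ∪
      (pw p n).biUnion (fun a => (T l (n - p ^ a)).image (fun m => m * p ^ a))

lemma card_T (l : List ℕ) : ∀ n, (T l n).card ≤ D l n := by
  induction l with
  | nil => intro n; simp [T, D]
  | cons p l ih =>
    intro n
    unfold T D
    refine (card_union_le _ _).trans (add_le_add (ih n) ?_)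
    refine card_biUnion_le.trans (sum_le_sum fun a _ => ?_)
    exact card_image_le.trans (ih _)

lemma f_one : f 1 = 0 := by simp [f]

lemma f_prime_pow {p a : ℕ} (hp : p.Prime) (ha : a ≠ 0) : f (p ^ a) = p ^ a := by
  unfold f
  rw [Nat.primeFactors_prime_pow ha hp, sum_singleton, hp.factorization_pow]
  simp

lemma f_mul {a b : ℕ} (h : a.Coprime b) : f (a * b) = f a + f b := by
  rcases Nat.eq_zero_or_pos a with rfl | ha
  · have : b = 1 := by simpa using h
    subst this
    simp [f]
  rcases Nat.eq_zero_or_pos b with rfl | hb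
  · have : a = 1 := by simpa using h
    subst this
    simp [f]
  unfold f
  rw [h.primeFactors_mul, sum_union h.disjoint_primeFactors]
  congr 1
  · refine sum_congr rfl fun p hp => ?_
    rw [Nat.factorization_mul ha.ne' hb.ne', Finsupp.add_apply]
    have : ¬ p ∣ b := by
      intro hpb
      have hpa := Nat.dvd_of_mem_primeFactors hp
      have := Nat.dvd_gcd hpa hpb
      rw [h] at this
      exact (Nat.prime_of_mem_primeFactors hp).one_lt.ne' (Nat.dvd_one.1 this)
    rw [Nat.factorization_eq_zero_of_not_dvd this, add_zero]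
  · refine sum_congr rfl fun p hp => ?_
    rw [Nat.factorization_mul ha.ne' hb.ne', Finsupp.add_apply]
    have : ¬ p ∣ a := by
      intro hpa
      have hpb := Nat.dvd_of_mem_primeFactors hp
      have := Nat.dvd_gcd hpa hpb
      rw [h] at this
      exact (Nat.prime_of_mem_primeFactors hp).one_lt.ne' (Nat.dvd_one.1 this)
    rw [Nat.factorization_eq_zero_of_not_dvd this, zero_add]

lemma f_le (m : ℕ) : f m ≤ m := by
  induction m using Nat.recOnPosPrimePosCoprime with
  | prime_pow p n hp hn => exact (f_prime_pow hp hn.ne').le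
  | zero => simp [f]
  | one => simp [f]
  | coprime a b ha hb hab iha ihb =>
    rw [f_mul hab]
    nlinarith

lemma f_lcm_le {a b : ℕ} (ha : a ≠ 0) (hb : b ≠ 0) : f (a.lcm b) ≤ f a + f b := by
  unfold f
  have h1 : (a.lcm b).primeFactors = a.primeFactors ∪ b.primeFactors := by
    ext p
    rw [mem_union, Nat.mem_primeFactors, Nat.mem_primeFactors, Nat.mem_primeFactors]
    constructor
    · rintro ⟨hp, hd, -⟩
      rcases (Nat.Prime.dvd_lcm hp).1 hd with h | h
      · exact Or.inl ⟨hp, h, ha⟩
      · exact Or.inr ⟨hp, h, hb⟩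
    · rintro (⟨hp, hd, -⟩ | ⟨hp, hd, -⟩)
      · exact ⟨hp, hd.trans (Nat.dvd_lcm_left a b), Nat.lcm_ne_zero ha hb⟩
      · exact ⟨hp, hd.trans (Nat.dvd_lcm_right a b), Nat.lcm_ne_zero ha hb⟩
  rw [h1, Nat.factorization_lcm ha hb]
  have h2 : ∀ p ∈ a.primeFactors ∪ b.primeFactors,
      p ^ (a.factorization ⊔ b.factorization) p ≤
        (if p ∈ a.primeFactors then p ^ a.factorization p else 0) +
        (if p ∈ b.primeFactors then p ^ b.factorization p else 0) := by
    intro p hp
    rw [Finsupp.sup_apply]
    rcases le_total (a.factorization p) (b.factorization p) with h | h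
    · rw [sup_of_le_right h]
      by_cases hpb : p ∈ b.primeFactors
      · rw [if_pos hpb]; exact Nat.le_add_left _ _
      · have hpa : p ∈ a.primeFactors := by
          rcases mem_union.1 hp with h | h
          · exact h
          · exact absurd h hpb
        have h3 : 0 < a.factorization p :=
          (Nat.prime_of_mem_primeFactors hpa).factorization_pos_of_dvd ha
            (Nat.dvd_of_mem_primeFactors hpa)
        exfalso
        apply hpb
        rw [← Nat.support_factorization, Finsupp.mem_support_iff]
        omega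
    · rw [sup_of_le_left h]
      by_cases hpa : p ∈ a.primeFactors
      · rw [if_pos hpa]; exact Nat.le_add_right _ _
      · have hpb : p ∈ b.primeFactors := by
          rcases mem_union.1 hp with h | h
          · exact absurd h hpa
          · exact h
        have h3 : 0 < b.factorization p :=
          (Nat.prime_of_mem_primeFactors hpb).factorization_pos_of_dvd hb
            (Nat.dvd_of_mem_primeFactors hpb)
        exfalso
        apply hpa
        rw [← Nat.support_factorization, Finsupp.mem_support_iff]
        omega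
  refine (sum_le_sum h2).trans ?_
  rw [sum_add_distrib, ← sum_filter, ← sum_filter]
  apply add_le_add
  · apply le_of_eq
    apply sum_congr _ (fun _ _ => rfl)
    ext p
    simp only [mem_filter, mem_union]
    tauto
  · apply le_of_eq
    apply sum_congr _ (fun _ _ => rfl)
    ext p
    simp only [mem_filter, mem_union]
    tauto

lemma f_multiset_lcm (s : Multiset ℕ) (hs : ∀ x ∈ s, x ≠ 0) :
    s.lcm ≠ 0 ∧ f s.lcm ≤ s.sum := by
  induction s using Multiset.induction with
  | empty => simp [f]
  | cons a s ih =>
    obtain ⟨h1, h2⟩ := ih fun x hx => hs x (Multiset.mem_cons_of_mem hx)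
    have ha : a ≠ 0 := hs a (Multiset.mem_cons_self a s)
    rw [Multiset.lcm_cons, Multiset.sum_cons]
    refine ⟨Nat.lcm_ne_zero ha h1, ?_⟩
    exact (f_lcm_le ha h1).trans (add_le_add (f_le a) h2)

lemma f_orderOf {n : ℕ} (σ : Equiv.Perm (Fin n)) : 0 < orderOf σ ∧ f (orderOf σ) ≤ n := by
  classical
  refine ⟨orderOf_pos σ, ?_⟩
  rw [← Equiv.Perm.lcm_cycleType σ]
  refine (f_multiset_lcm σ.cycleType ?_).2.trans ?_
  · intro x hx
    have := Equiv.Perm.two_le_of_mem_cycleType hx
    omega
  · rw [Equiv.Perm.sum_cycleType]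
    exact (card_le_univ _).trans (by simp)

lemma prime_le_f {m p : ℕ} (hm : m ≠ 0) (hp : p.Prime) (hd : p ∣ m) : p ≤ f m := by
  have h1 : p ∈ m.primeFactors := Nat.mem_primeFactors.2 ⟨hp, hd, hm⟩
  have h2 : p ^ m.factorization p ≤ f m :=
    single_le_sum (f := fun p => p ^ m.factorization p) (fun _ _ => Nat.zero_le _) h1
  refine le_trans ?_ h2
  exact Nat.le_self_pow (hp.factorization_pos_of_dvd hm hd).ne' p

lemma mem_T (l : List ℕ) : ∀ n m, 0 < m → (∀ p, p.Prime → p ∣ m → p ∈ l) → f m ≤ n →
    m ∈ T l n := by
  induction l with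
  | nil =>
    intro n m hm h _
    have : m = 1 := by
      by_contra hne
      obtain ⟨p, hp, hd⟩ := Nat.exists_prime_and_dvd hne
      exact absurd (h p hp hd) (by simp)
    simp [T, this]
  | cons p l ih =>
    intro n m hm h hf
    unfold T
    rw [mem_union]
    by_cases hp : p.Prime ∧ p ∣ m
    · right
      obtain ⟨hp, hd⟩ := hp
      have ha : 0 < m.factorization p := hp.factorization_pos_of_dvd hm.ne' hd
      set a := m.factorization p with ha'
      have hm' : (m / p ^ a) * p ^ a = m := by
        rw [ha', mul_comm]; exact Nat.ordProj_mul_ordCompl_eq_self m p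
      have hcop : (m / p ^ a).Coprime (p ^ a) := by
        apply Nat.Coprime.pow_right
        exact (Nat.coprime_ordCompl hp hm.ne').symm
      have hfm : f m = f (m / p ^ a) + p ^ a := by
        conv_lhs => rw [← hm']
        rw [f_mul hcop, f_prime_pow hp ha.ne']
      have h1 : p ^ a ≤ n := by omega
      have h2 : a ≤ n := le_trans (Nat.lt_pow_self hp.one_lt).le h1
      rw [mem_biUnion]
      refine ⟨a, ?_, ?_⟩
      · unfold pw
        rw [mem_filter, mem_Icc]
        exact ⟨⟨ha, h2⟩, h1⟩
      · rw [mem_image]
        refine ⟨m / p ^ a, ?_, hm'⟩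
        apply ih
        · rcases Nat.eq_zero_or_pos (m / p ^ a) with h0 | h0
          · rw [h0, zero_mul] at hm'; omega
          · exact h0
        · intro q hq hqd
          have hqm : q ∣ m := by
            rw [← hm']; exact Dvd.dvd.mul_right hqd _
          rcases List.mem_cons.1 (h q hq hqm) with h3 | h3
          · exfalso
            rw [h3] at hqd
            exact Nat.not_dvd_ordCompl hp hm.ne' hqd
          · exact h3
        · omega
    · left
      apply ih n m hm _ hf
      intro q hq hqd
      rcases List.mem_cons.1 (h q hq hqd) with h3 | h3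
      · exact absurd ⟨h3 ▸ hq, h3 ▸ hqd⟩ hp
      · exact h3

/-- The number of element orders of `Sym n` is at most `D l n`, if all primes up to `n` are in
the list `l`. -/
theorem card_orders_le (n : ℕ) (l : List ℕ) (hl : ∀ p, p.Prime → p ≤ n → p ∈ l) :
    (Set.range (fun σ : Equiv.Perm (Fin n) => orderOf σ)).ncard ≤ D l n := by
  refine le_trans ?_ (card_T l n)
  rw [← Set.ncard_coe_finset]
  apply Set.ncard_le_ncard _ (Finset.finite_toSet _)
  rintro _ ⟨σ, rfl⟩
  obtain ⟨h1, h2⟩ := f_orderOf σ
  rw [mem_coe]
  refine mem_T l n _ h1 (fun p hp hd => hl p hp ?_) h2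
  exact (prime_le_f h1.ne' hp hd).trans h2

lemma pw_mono {p n n' : ℕ} (h : n ≤ n') : pw p n ⊆ pw p n' := by
  intro a ha
  unfold pw at *
  rw [mem_filter, mem_Icc] at *
  omega

lemma D_mono_right (l : List ℕ) : ∀ {n n' : ℕ}, n ≤ n' → D l n ≤ D l n' := by
  induction l with
  | nil => intro n n' _; simp [D]
  | cons p l ih =>
    intro n n' h
    unfold D
    refine add_le_add (ih h) ?_
    refine (sum_le_sum fun a _ => ih (Nat.sub_le_sub_right h _)).trans ?_
    exact sum_le_sum_of_subset (pw_mono h)

end Pool.Agent.R358.OSym
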