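import Pool.Agent.R358.OSymPk

/-!
# Element orders of the symmetric group: the cases `n < 10000`
-/

set_option autoImplicit false

namespace Pool.Agent.R358.OSym

open Finset

/-- The initial value. -/
def V0 : ℕ := (2 ^ (150 * 10000) - 1) / (2 ^ 150 - 1)

lemma V0_eq : V0 = pack 150 9999 [] := by
  have h : ∀ n, (2 ^ 150 - 1) * ∑ i ∈ range n, 2 ^ (150 * i) = 2 ^ (150 * n) - 1 := by
    intro n
    induction n with
    | zero => simp
    | succ n ih =>
      rw [sum_range_succ, mul_add, ih]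
      have h1 : 2 ^ (150 * (n + 1)) = 2 ^ 150 * 2 ^ (150 * n) := by
        rw [← pow_add]; congr 1; ring
      rw [h1]
      have h2 : 1 ≤ 2 ^ (150 * n) := Nat.one_le_two_pow
      generalize 2 ^ (150 * n) = t at h2 ⊢
      omega
  unfold V0 pack
  simp only [D, one_mul]
  rw [← h 10000, Nat.mul_div_cancel_left _ (by norm_num)]

attribute [local irreducible] pack step V0

lemma D_lt {l : List ℕ} (hl : l.Nodup) (hp : ∀ p ∈ l, p.Prime) {i : ℕ} (hi : i ≤ 9999) :
    D l i < 2 ^ 150 := by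
  have h1 := D_le_exp (X := 200) le_rfl hl hp i
  have h2 : (i : ℝ) / 200 + 200 / 4 ≤ 100 := by
    have : (i : ℝ) ≤ 9999 := by exact_mod_cast hi
    linarith
  have h3 := h1.trans (Real.exp_le_exp.2 h2)
  have h4 : Real.exp 100 < 2 ^ 150 := by
    have h5 := Real.exp_one_lt_d9
    have h6 : Real.exp 100 = Real.exp 1 ^ 100 := by
      rw [← Real.exp_nat_mul]; norm_num
    rw [h6]
    calc Real.exp 1 ^ 100 < 2.7182818286 ^ 100 :=
          pow_lt_pow_left₀ h5 (Real.exp_pos _).le (by norm_num)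
      _ < 2 ^ 150 := by norm_num
  have h5 : (D l i : ℝ) < ((2 ^ 150 : ℕ) : ℝ) := by
    rw [Nat.cast_pow, Nat.cast_ofNat]
    exact h3.trans_lt h4
  exact_mod_cast h5

/-- The product of the primes below 100. -/
def QQ : ℕ := 2305567963945518424753102147331756070

lemma prime_of_coprime {k : ℕ} (hk : 1 < k) (hk2 : k < 10000) (h : Nat.gcd k QQ = 1) :
    k.Prime := by
  by_contra hnp
  have h1 : (k.minFac).Prime := Nat.minFac_prime (by omega)
  have h2 : k.minFac ^ 2 ≤ k := Nat.minFac_sq_le_self (by omega) hnp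
  have h3 : k.minFac < 100 := by nlinarith
  have h4 : ∀ q < 100, q.Prime → q ∣ QQ := by decide +kernel
  have h5 := h4 _ h3 h1
  have h6 := Nat.dvd_gcd (Nat.minFac_dvd k) h5
  rw [h] at h6
  exact h1.one_lt.ne' (Nat.dvd_one.1 h6)

lemma coprime_of_prime {k : ℕ} (hk : 97 < k) (hp : k.Prime) : Nat.gcd k QQ = 1 := by
  have h1 : QQ = ∏ q ∈ (range 98).filter Nat.Prime, q := by decide +kernel
  change Nat.Coprime k QQ
  rw [h1]
  apply Nat.Coprime.prod_right
  intro q hq
  rw [mem_filter, mem_range] at hq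
  rw [Nat.coprime_primes hp hq.2]
  omega

lemma loop_true {w N Q B f k V : ℕ} (h : Nat.gcd k Q = 1) :
    loop w N Q B (f + 1) k V = loop w N Q B f (k + 1) (step w N V k) := by
  rw [loop, h]
  cases h2 : Nat.ble V B with
  | true => rfl
  | false => rfl

lemma loop_false {w N Q B f k V : ℕ} (h : Nat.gcd k Q ≠ 1) :
    loop w N Q B (f + 1) k V = loop w N Q B f (k + 1) V := by
  have h1 : Nat.beq (Nat.gcd k Q) 1 = false := by
    cases h2 : Nat.beq (Nat.gcd k Q) 1 with
    | true => exact absurd (Nat.eq_of_beq_eq_true h2) h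
    | false => rfl
  rw [loop, h1]

lemma lst_true {Q f k : ℕ} {l : List ℕ} (h : Nat.gcd k Q = 1) :
    lst Q (f + 1) k l = lst Q f (k + 1) (k :: l) := by
  rw [lst, h]

lemma lst_false {Q f k : ℕ} {l : List ℕ} (h : Nat.gcd k Q ≠ 1) :
    lst Q (f + 1) k l = lst Q f (k + 1) l := by
  have h1 : Nat.beq (Nat.gcd k Q) 1 = false := by
    cases h2 : Nat.beq (Nat.gcd k Q) 1 with
    | true => exact absurd (Nat.eq_of_beq_eq_true h2) h
    | false => rfl
  rw [lst, h1]

/-- The induction statement on the list. -/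
def Good (f k : ℕ) (l : List ℕ) : Prop :=
  (lst QQ f k l).Nodup ∧ (∀ p ∈ lst QQ f k l, p.Prime) ∧ (∀ p ∈ l, p ∈ lst QQ f k l) ∧
    ∀ p, p.Prime → k ≤ p → p < k + f → p ∈ lst QQ f k l

lemma good_zero {k : ℕ} {l : List ℕ} (hl : l.Nodup) (hp : ∀ p ∈ l, p.Prime ∧ p < k) :
    Good 0 k l := by
  refine ⟨hl, fun p hp' => (hp p hp').1, fun p h => h, ?_⟩
  intro p _ h1 h2
  omega

lemma good_true {f k : ℕ} {l : List ℕ} (h : Nat.gcd k QQ = 1) (i : Good f (k + 1) (k :: l)) :
    Good (f + 1) k l := by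
  unfold Good
  rw [lst_true h]
  obtain ⟨i2, i3, i4, i5⟩ := i
  refine ⟨i2, i3, fun p hp' => i4 p (List.mem_cons_of_mem _ hp'), ?_⟩
  intro p hp' h1 h2
  rcases Nat.eq_or_lt_of_le h1 with h3 | h3
  · rw [← h3]; exact i4 k List.mem_cons_self
  · exact i5 p hp' h3 (by clear i2 i3 i4 i5 h; omega)

lemma good_false {f k : ℕ} {l : List ℕ} (hk : 98 ≤ k) (h : Nat.gcd k QQ ≠ 1)
    (i : Good f (k + 1) l) : Good (f + 1) k l := by
  unfold Good
  rw [lst_false h]
  obtain ⟨i2, i3, i4, i5⟩ := i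
  refine ⟨i2, i3, i4, ?_⟩
  intro p hp' h1 h2
  rcases Nat.eq_or_lt_of_le h1 with h3 | h3
  · exact absurd (coprime_of_prime hk (h3 ▸ hp')) h
  · exact i5 p hp' h3 (by clear i2 i3 i4 i5 h; omega)

lemma cons_good {k : ℕ} {l : List ℕ} (hkp : k.Prime) (hl : l.Nodup)
    (hp : ∀ p ∈ l, p.Prime ∧ p < k) :
    (k :: l).Nodup ∧ ∀ p ∈ k :: l, p.Prime ∧ p < k + 1 := by
  constructor
  · rw [List.nodup_cons]
    refine ⟨fun hm => ?_, hl⟩
    have := (hp k hm).2
    omega
  · intro p hp'
    rcases List.mem_cons.1 hp' with rfl | h'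
    · exact ⟨hkp, by omega⟩
    · exact ⟨(hp p h').1, by have := (hp p h').2; omega⟩

lemma loop_pack (B : ℕ) : ∀ (f k : ℕ) (l : List ℕ), 98 ≤ k → k + f ≤ 10000 → l.Nodup →
    (∀ p ∈ l, p.Prime ∧ p < k) →
    loop 150 9999 QQ B f k (pack 150 9999 l) = pack 150 9999 (lst QQ f k l) ∧ Good f k l := by
  intro f
  induction f with
  | zero =>
    intro k l _ _ hl hp
    exact ⟨rfl, good_zero hl hp⟩
  | succ f ih =>
    intro k l hk hkf hl hp
    have hk1 : 98 ≤ k + 1 := by omega
    have hk2 : k + 1 + f ≤ 10000 := by omega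
    have hk3 : 1 < k := by omega
    have hk4 : k < 10000 := by omega
    by_cases h : Nat.gcd k QQ = 1
    · have hkp : k.Prime := prime_of_coprime hk3 hk4 h
      obtain ⟨hnd, hpr⟩ := cons_good hkp hl hp
      have hstep : step 150 9999 (pack 150 9999 l) k = pack 150 9999 (k :: l) :=
        step_pack (by norm_num) hkp.two_le
          (fun i hi => D_lt hnd (fun p hp' => (hpr p hp').1) hi)
      obtain ⟨i1, i2⟩ := ih (k + 1) (k :: l) hk1 hk2 hnd hpr
      refine ⟨?_, good_true h i2⟩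
      rw [loop_true h, lst_true h, hstep]
      exact i1
    · have hp2 : ∀ p ∈ l, p.Prime ∧ p < k + 1 := fun p hp' =>
        ⟨(hp p hp').1, Nat.lt_succ_of_lt (hp p hp').2⟩
      obtain ⟨i1, i2⟩ := ih (k + 1) l hk1 hk2 hl hp2
      refine ⟨?_, good_false hk h i2⟩
      rw [loop_false h, lst_false h]
      exact i1

/-- The primes below 98. -/
def sp : List ℕ := [2, 3, 5, 7, 11, 13, 17, 19, 23, 29, 31, 37, 41, 43, 47, 53, 59, 61, 67, 71,
  73, 79, 83, 89, 97]

/-- The steps for the primes of a list. -/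
def sloop (w N B : ℕ) : List ℕ → ℕ → ℕ
  | [], V => V
  | p :: l, V => match Nat.ble V B with
    | true => sloop w N B l (step w N V p)
    | false => sloop w N B l (step w N V p)

lemma sloop_cons {w N B p V : ℕ} {l : List ℕ} :
    sloop w N B (p :: l) V = sloop w N B l (step w N V p) := by
  rw [sloop]
  cases h2 : Nat.ble V B with
  | true => rfl
  | false => rfl

lemma sloop_pack (B : ℕ) : ∀ (s l : List ℕ), (s.reverse ++ l).Nodup → (∀ p ∈ s, p.Prime) →
    (∀ p ∈ l, p.Prime) → sloop 150 9999 B s (pack 150 9999 l) = pack 150 9999 (s.reverse ++ l) := by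
  intro s
  induction s with
  | nil => intro l _ _ _; rw [sloop, List.reverse_nil, List.nil_append]
  | cons p s ih =>
    intro l hnd hs hl
    have e1 : (p :: s).reverse ++ l = s.reverse ++ (p :: l) := by simp
    rw [e1] at hnd ⊢
    have hpl : ∀ q ∈ p :: l, q.Prime := by
      intro q hq
      rcases List.mem_cons.1 hq with rfl | h
      · exact hs _ List.mem_cons_self
      · exact hl q h
    have hnd2 : (p :: l).Nodup := (List.nodup_append.1 hnd).2.1
    have hstep : step 150 9999 (pack 150 9999 l) p = pack 150 9999 (p :: l) :=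
      step_pack (by norm_num) (hs p List.mem_cons_self).two_le
        (fun i hi => D_lt hnd2 hpl hi)
    have i1 := ih (p :: l) hnd (fun q hq => hs q (List.mem_cons_of_mem _ hq)) hpl
    rw [sloop_cons, hstep]
    exact i1

/-- The packed values for all primes below 10000. -/
def VV : ℕ := loop 150 9999 QQ (2 ^ 1500000) 9902 98 (sloop 150 9999 (2 ^ 1500000) sp V0)

/-- The count read off from the packed value. -/
def cnt (V b : ℕ) : ℕ := (V &&& (2 ^ (150 * (b + 1)) - 1)) >>> (150 * b)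

/-- The check over blocks: the entry `(b, j)` treats the numbers from `a` to `b`. -/
def chk (V : ℕ) : ℕ → List (ℕ × ℕ) → Bool
  | a, [] => Nat.beq a 10000
  | a, (b, j) :: t => Nat.ble a b && (Nat.ble b 9999 && (Nat.ble (j * j) (10000 * a) &&
      (Nat.ble (cnt V b * 10 ^ (5 * j)) (101005 ^ j) && chk V (b + 1) t)))

lemma exists_list : ∃ l : List ℕ, l.Nodup ∧ (∀ p ∈ l, p.Prime) ∧
    (∀ p, p.Prime → p < 10000 → p ∈ l) ∧ VV = pack 150 9999 l := by
  have hsp : ∀ p ∈ sp, p.Prime := by decide +kernel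
  have hsp2 : (sp.reverse ++ []).Nodup := by decide +kernel
  have h1 := sloop_pack (2 ^ 1500000) sp [] hsp2 hsp (by simp)
  rw [← V0_eq] at h1
  have hsp3 : ∀ p ∈ sp.reverse ++ [], p.Prime ∧ p < 98 := by
    intro p hp
    rw [List.append_nil, List.mem_reverse] at hp
    refine ⟨hsp p hp, ?_⟩
    have : ∀ p ∈ sp, p < 98 := by decide +kernel
    exact this p hp
  obtain ⟨i1, i2, i3, i4, i5⟩ := loop_pack (2 ^ 1500000) 9902 98 (sp.reverse ++ []) le_rfl
    (by norm_num) hsp2 hsp3
  refine ⟨_, i2, i3, ?_, ?_⟩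
  · intro p hp hp2
    rcases Nat.lt_or_ge p 98 with h | h
    · apply i4
      rw [List.append_nil, List.mem_reverse]
      have : ∀ p < 98, p.Prime → p ∈ sp := by decide +kernel
      exact this p h hp
    · exact i5 p hp h (by omega)
  · unfold VV
    rw [h1]
    exact i1

lemma chk_sound {l : List ℕ} (hl : l.Nodup) (hp : ∀ p ∈ l, p.Prime) : ∀ (t : List (ℕ × ℕ))
    (a : ℕ), chk (pack 150 9999 l) a t = true → ∀ n, a ≤ n → n < 10000 →
      (D l n : ℝ) ≤ Real.exp (Real.sqrt n) := by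
  intro t
  induction t with
  | nil =>
    intro a h n h1 h2
    unfold chk at h
    have := Nat.eq_of_beq_eq_true h
    omega
  | cons x t ih =>
    obtain ⟨b, j⟩ := x
    intro a h n h1 h2
    unfold chk at h
    rw [Bool.and_eq_true, Bool.and_eq_true, Bool.and_eq_true, Bool.and_eq_true] at h
    obtain ⟨c1, c2, c3, c4, c5⟩ := h
    have c1' := Nat.le_of_ble_eq_true c1
    have c2' := Nat.le_of_ble_eq_true c2
    have c3' := Nat.le_of_ble_eq_true c3
    have c4' := Nat.le_of_ble_eq_true c4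
    rcases Nat.lt_or_ge b n with hbn | hbn
    · exact ih (b + 1) c5 n hbn h2
    · have d1 : D l n ≤ D l b := D_mono_right l hbn
      have d2 : D l b ≤ cnt (pack 150 9999 l) b :=
        digit_le (fun i hi => D_lt hl hp hi) c2'
      have d3 : D l n * 10 ^ (5 * j) ≤ 101005 ^ j :=
        (Nat.mul_le_mul_right _ (d1.trans d2)).trans c4'
      have d4 : (D l n : ℝ) ≤ (1.01005 : ℝ) ^ j := by
        have d5 : (D l n : ℝ) * 10 ^ (5 * j) ≤ 101005 ^ j := by exact_mod_cast d3
        have d6 : (1.01005 : ℝ) ^ j = 101005 ^ j / 10 ^ (5 * j) := by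
          rw [pow_mul, ← div_pow]; norm_num
        rw [d6, le_div_iff₀ (by positivity)]
        exact d5
      have d5 : (1.01005 : ℝ) ≤ Real.exp (1 / 100) := by
        have := Real.quadratic_le_exp_of_nonneg (x := 1 / 100) (by norm_num)
        refine le_trans ?_ this
        norm_num
      have d6 : (1.01005 : ℝ) ^ j ≤ Real.exp (j / 100) := by
        have := pow_le_pow_left₀ (by norm_num) d5 j
        rw [← Real.exp_nat_mul] at this
        refine this.trans (le_of_eq ?_)
        congr 1; ring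
      refine d4.trans (d6.trans (Real.exp_le_exp.2 ?_))
      have d7 : ((j : ℝ) / 100) ^ 2 ≤ n := by
        have e1 : ((j * j : ℕ) : ℝ) ≤ ((10000 * a : ℕ) : ℝ) := by exact_mod_cast c3'
        push_cast at e1
        have e2 : (a : ℝ) ≤ n := by exact_mod_cast h1
        nlinarith
      exact Real.le_sqrt_of_sq_le d7

end Pool.Agent.R358.OSym
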