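import Pool.Agent.R358.OSymDP

/-!
# Element orders of the symmetric group: the bound `exp (sqrt n)`
-/

set_option autoImplicit false

namespace Pool.Agent.R358.OSym

open Finset

/-- The blocks used in the check. -/
def blocks : List (ℕ × ℕ) :=
  [(2, 100), (4, 173), (7, 223), (10, 282), (13, 331), (15, 374), (17, 400), (19, 424),
   (21, 447), (23, 469), (25, 489), (27, 509), (29, 529), (31, 547), (33, 565), (35, 583),
   (37, 600), (39, 616), (41, 632), (43, 648), (45, 663), (47, 678), (49, 692), (51, 707),
   (53, 721), (55, 734), (57, 748), (59, 761), (61, 774), (63, 787), (65, 800), (67, 812),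
   (69, 824), (71, 836), (73, 848), (76, 860), (79, 877), (82, 894), (85, 911), (88, 927),
   (91, 943), (94, 959), (98, 974), (102, 994), (106, 1014), (110, 1034), (115, 1053),
   (120, 1077), (126, 1100), (132, 1126), (139, 1153), (146, 1183), (154, 1212), (163, 1244),
   (173, 1280), (184, 1319), (197, 1360), (211, 1407), (227, 1456), (245, 1509), (267, 1568),
   (292, 1637), (322, 1711), (358, 1797), (401, 1894), (454, 2004), (520, 2133), (602, 2282),
   (707, 2455), (843, 2660), (1024, 2905), (1268, 3201), (1606, 3562), (2084, 4008),
   (2782, 4566), (3830, 5275), (5456, 6189), (8072, 7387), (9999, 8984)]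

set_option maxRecDepth 100000 in
lemma chk_blocks : chk VV 1 blocks = true := by decide +kernel

theorem card_le_exp_sqrt (n : ℕ) (hn : 0 < n) :
    ((Set.range (fun σ : Equiv.Perm (Fin n) => orderOf σ)).ncard : ℝ) ≤
      Real.exp (Real.sqrt n) := by
  rcases Nat.lt_or_ge n 10000 with h | h
  · obtain ⟨l, h1, h2, h3, h4⟩ := exists_list
    have h5 := chk_blocks
    rw [h4] at h5
    have h6 := chk_sound h1 h2 blocks 1 h5 n hn h
    refine le_trans ?_ h6
    exact_mod_cast card_orders_le n l fun p hp hpn => h3 p hp (by omega)
  · have h1 : ((List.range (n + 1)).filter Nat.Prime).Nodup := List.nodup_range.filter _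
    have h2 : ∀ p ∈ (List.range (n + 1)).filter Nat.Prime, p.Prime := by
      intro p hp
      rw [List.mem_filter] at hp
      exact of_decide_eq_true hp.2
    have h3 := D_le_large h1 h2 n h
    refine le_trans ?_ h3
    exact_mod_cast card_orders_le n _ fun p hp hpn => by
      rw [List.mem_filter, List.mem_range]
      exact ⟨by omega, decide_eq_true hp⟩

end Pool.Agent.R358.OSym
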