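import Pool.Agent.R358.OSymBd

/-!
# Packed computation of `D`

The numbers `D l 0, ..., D l N` are packed into one natural number in base `2 ^ w`.
-/

set_option autoImplicit false

namespace Pool.Agent.R358.OSym

open Finset

/-- `acc` plus the shifts of `V` by the powers `q, q p, q p ^ 2, ... ≤ N`. -/
def addPows (w N V p : ℕ) : ℕ → ℕ → ℕ → ℕ
  | 0, _, acc => acc
  | f + 1, q, acc => match Nat.ble q N with
    | true => addPows w N V p f (q * p) (acc + V <<< (w * q))
    | false => acc

/-- One step of the computation. -/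
def step (w N V p : ℕ) : ℕ := addPows w N V p 14 p V &&& (2 ^ (w * (N + 1)) - 1)

/-- The steps for all the integers `k, ..., k + f - 1` coprime to `Q`. -/
def loop (w N Q B : ℕ) : ℕ → ℕ → ℕ → ℕ
  | 0, _, V => V
  | f + 1, k, V => match Nat.beq (Nat.gcd k Q) 1 with
    | true => match Nat.ble V B with
      | true => loop w N Q B f (k + 1) (step w N V k)
      | false => loop w N Q B f (k + 1) (step w N V k)
    | false => loop w N Q B f (k + 1) V

/-- The list of integers used in `loop`. -/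
def lst (Q : ℕ) : ℕ → ℕ → List ℕ → List ℕ
  | 0, _, l => l
  | f + 1, k, l => match Nat.beq (Nat.gcd k Q) 1 with
    | true => lst Q f (k + 1) (k :: l)
    | false => lst Q f (k + 1) l

/-- The packed values. -/
def pack (w N : ℕ) (l : List ℕ) : ℕ := ∑ i ∈ range (N + 1), D l i * 2 ^ (w * i)

lemma addPows_eq (w N V p : ℕ) (hp : 2 ≤ p) : ∀ f a acc,
    addPows w N V p f (p ^ a) acc =
      acc + ∑ b ∈ (Ico a (a + f)).filter (fun b => p ^ b ≤ N), V * 2 ^ (w * p ^ b) := by
  intro f
  induction f with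
  | zero => intro a acc; simp [addPows]
  | succ f ih =>
    intro a acc
    unfold addPows
    cases h : Nat.ble (p ^ a) N with
    | true =>
      simp only
      rw [← pow_succ, ih (a + 1), Nat.shiftLeft_eq]
      have h1 : p ^ a ≤ N := Nat.le_of_ble_eq_true h
      have h2 : (Ico a (a + (f + 1))).filter (fun b => p ^ b ≤ N) =
          insert a ((Ico (a + 1) (a + 1 + f)).filter (fun b => p ^ b ≤ N)) := by
        ext b
        simp only [mem_filter, mem_Ico, mem_insert]
        constructor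
        · rintro ⟨⟨h3, h4⟩, h5⟩
          rcases Nat.eq_or_lt_of_le h3 with h6 | h6
          · exact Or.inl h6.symm
          · exact Or.inr ⟨⟨h6, by omega⟩, h5⟩
        · rintro (rfl | ⟨⟨h3, h4⟩, h5⟩)
          · exact ⟨⟨le_rfl, by omega⟩, h1⟩
          · exact ⟨⟨by omega, by omega⟩, h5⟩
      rw [h2, sum_insert (by simp)]
      ring
    | false =>
      simp only
      have h1 : ¬ p ^ a ≤ N := by
        intro h'
        rw [Nat.ble_eq_true_of_le h'] at h
        exact absurd h (by simp)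
      have h2 : (Ico a (a + (f + 1))).filter (fun b => p ^ b ≤ N) = ∅ := by
        apply filter_eq_empty_iff.2
        intro b hb hb2
        rw [mem_Ico] at hb
        exact h1 ((Nat.pow_le_pow_right (by omega) hb.1).trans hb2)
      rw [h2, sum_empty, add_zero]

lemma sum_digits_lt (w : ℕ) (d : ℕ → ℕ) (N : ℕ) (hd : ∀ i < N, d i < 2 ^ w) :
    ∑ i ∈ range N, d i * 2 ^ (w * i) < 2 ^ (w * N) := by
  induction N with
  | zero => simp
  | succ N ih =>
    rw [sum_range_succ]
    have h1 := ih fun i hi => hd i (by omega)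
    have h2 := hd N (by omega)
    have h3 : 2 ^ (w * (N + 1)) = 2 ^ w * 2 ^ (w * N) := by
      rw [← pow_add]; congr 1; ring
    rw [h3]
    have h4 : (d N + 1) * 2 ^ (w * N) ≤ 2 ^ w * 2 ^ (w * N) := Nat.mul_le_mul_right _ h2
    nlinarith

lemma step_pack {w N p : ℕ} {l : List ℕ} (hN : N < 2 ^ 14) (hp : 2 ≤ p)
    (hd : ∀ i ≤ N, D (p :: l) i < 2 ^ w) : step w N (pack w N l) p = pack w N (p :: l) := by
  unfold step
  rw [Nat.and_two_pow_sub_one_eq_mod]
  have h1 := addPows_eq w N (pack w N l) p hp 14 1 (pack w N l)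
  rw [pow_one] at h1
  rw [h1]
  have h2 : (Ico 1 (1 + 14)).filter (fun b => p ^ b ≤ N) = pw p N := by
    unfold pw
    ext b
    simp only [mem_filter, mem_Ico, mem_Icc]
    constructor
    · rintro ⟨⟨h3, h4⟩, h5⟩
      have : b < p ^ b := Nat.lt_pow_self (by omega)
      exact ⟨⟨h3, by omega⟩, h5⟩
    · rintro ⟨⟨h3, h4⟩, h5⟩
      refine ⟨⟨h3, ?_⟩, h5⟩
      by_contra h6
      have h7 : 2 ^ 14 ≤ p ^ b :=
        (Nat.pow_le_pow_left hp 14).trans (Nat.pow_le_pow_right (by omega) (by omega))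
      omega
  rw [h2]
  have hlt : pack w N (p :: l) < 2 ^ (w * (N + 1)) :=
    sum_digits_lt w (D (p :: l)) (N + 1) fun i hi => hd i (by omega)
  have key : pack w N l + ∑ a ∈ pw p N, pack w N l * 2 ^ (w * p ^ a) ≡ pack w N (p :: l)
      [MOD 2 ^ (w * (N + 1))] := by
    have e1 : pack w N (p :: l) = pack w N l +
        ∑ a ∈ pw p N, ∑ i ∈ (range (N + 1)).filter (fun i => p ^ a ≤ i),
          D l (i - p ^ a) * 2 ^ (w * i) := by
      have e2 : pack w N (p :: l) = ∑ i ∈ range (N + 1), (D l i * 2 ^ (w * i) +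
          ∑ a ∈ pw p i, D l (i - p ^ a) * 2 ^ (w * i)) := by
        unfold pack
        apply sum_congr rfl
        intro i _
        rw [D, add_mul, sum_mul]
      rw [e2, sum_add_distrib]
      congr 1
      rw [Finset.sum_comm' (t' := pw p N)
        (s' := fun a => (range (N + 1)).filter (fun i => p ^ a ≤ i))]
      intro i a
      unfold pw
      simp only [mem_filter, mem_Icc, mem_range]
      constructor
      · rintro ⟨h3, ⟨h4, h5⟩, h6⟩
        exact ⟨⟨h3, h6⟩, ⟨h4, by omega⟩, by omega⟩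
      · rintro ⟨⟨h3, h4⟩, ⟨h5, h6⟩, h7⟩
        have : a < p ^ a := Nat.lt_pow_self (by omega)
        exact ⟨h3, ⟨h5, by omega⟩, h4⟩
    rw [e1]
    apply Nat.ModEq.add_left
    apply Nat.ModEq.sum
    intro a ha
    unfold pw at ha
    rw [mem_filter, mem_Icc] at ha
    obtain ⟨_, hq⟩ := ha
    generalize p ^ a = q at hq ⊢
    have e3 : ∑ i ∈ (range (N + 1)).filter (fun i => q ≤ i), D l (i - q) * 2 ^ (w * i) =
        ∑ j ∈ range (N + 1 - q), D l j * 2 ^ (w * (j + q)) := by
      symm
      apply sum_bij (fun j _ => j + q)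
      · intro j hj
        rw [mem_range] at hj
        rw [mem_filter, mem_range]
        omega
      · intro j _ k _ h
        exact Nat.add_right_cancel h
      · intro i hi
        rw [mem_filter, mem_range] at hi
        exact ⟨i - q, by rw [mem_range]; omega, by omega⟩
      · intro j _
        rw [Nat.add_sub_cancel]
    rw [e3]
    unfold pack
    rw [sum_mul]
    have e4 : ∑ i ∈ range (N + 1), D l i * 2 ^ (w * i) * 2 ^ (w * q) =
        ∑ j ∈ range (N + 1 - q), D l j * 2 ^ (w * (j + q)) +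
        ∑ j ∈ Ico (N + 1 - q) (N + 1), D l j * 2 ^ (w * (j + q)) := by
      rw [sum_range_add_sum_Ico _ (by omega)]
      apply sum_congr rfl
      intro i _
      rw [mul_assoc, ← pow_add]
      congr 2
      ring
    rw [e4]
    have e5 : 2 ^ (w * (N + 1)) ∣ ∑ j ∈ Ico (N + 1 - q) (N + 1), D l j * 2 ^ (w * (j + q)) := by
      apply dvd_sum
      intro j hj
      rw [mem_Ico] at hj
      apply Dvd.dvd.mul_left
      apply pow_dvd_pow
      apply Nat.mul_le_mul_left
      omega
    have e6 := (Nat.modEq_zero_iff_dvd.2 e5).add_left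
      (∑ j ∈ range (N + 1 - q), D l j * 2 ^ (w * (j + q)))
    rwa [add_zero] at e6
  have h3 : (pack w N l + ∑ a ∈ pw p N, pack w N l * 2 ^ (w * p ^ a)) % 2 ^ (w * (N + 1)) =
      pack w N (p :: l) % 2 ^ (w * (N + 1)) := key
  rw [h3, Nat.mod_eq_of_lt hlt]

lemma digit_le {w N : ℕ} {l : List ℕ} (hd : ∀ i ≤ N, D l i < 2 ^ w) {b : ℕ} (hb : b ≤ N) :
    D l b ≤ (pack w N l &&& (2 ^ (w * (b + 1)) - 1)) >>> (w * b) := by
  rw [Nat.and_two_pow_sub_one_eq_mod, Nat.shiftRight_eq_div_pow]
  have h1 : pack w N l = ∑ i ∈ range (b + 1), D l i * 2 ^ (w * i) +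
      ∑ i ∈ Ico (b + 1) (N + 1), D l i * 2 ^ (w * i) := by
    unfold pack
    rw [sum_range_add_sum_Ico _ (by omega)]
  have h2 : 2 ^ (w * (b + 1)) ∣ ∑ i ∈ Ico (b + 1) (N + 1), D l i * 2 ^ (w * i) := by
    apply dvd_sum
    intro j hj
    rw [mem_Ico] at hj
    apply Dvd.dvd.mul_left
    apply pow_dvd_pow
    apply Nat.mul_le_mul_left
    omega
  obtain ⟨c, hc⟩ := h2
  have h3 := sum_digits_lt w (D l) (b + 1) fun i hi => hd i (by omega)
  rw [h1, hc, Nat.add_mul_mod_self_left, Nat.mod_eq_of_lt h3]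
  rw [Nat.le_div_iff_mul_le (by positivity)]
  exact single_le_sum (f := fun i => D l i * 2 ^ (w * i)) (fun _ _ => Nat.zero_le _)
    (mem_range.2 (Nat.lt_succ_self b))


end Pool.Agent.R358.OSym
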